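import Mathlib
import Pool.Agent.Q104.Spec

/-!
# The triangular prism: many vertices at maximal distance, small top predistance polynomial
-/

set_option autoImplicit false

namespace Pool.Agent.Results.MP_87d29b_co.Prism

open Matrix Finset Polynomial

section defs

variable {V : Type} [Fintype V] [DecidableEq V] (Γ : SimpleGraph V) [DecidableRel Γ.Adj]

/-- walk-regularity: the number of closed walks of each length does not depend on the vertex -/
def WalkRegular : Prop :=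
  ∀ (l : ℕ) (x y : V), (Γ.adjMatrix ℝ ^ l) x x = (Γ.adjMatrix ℝ ^ l) y y

/-- the scalar product `⟨f, g⟩ = (1 / n) tr (f (A) g (A))` -/
noncomputable def ip (f g : ℝ[X]) : ℝ :=
  1 / (Fintype.card V : ℝ) * ((aeval (Γ.adjMatrix ℝ) f) * (aeval (Γ.adjMatrix ℝ) g)).trace

/-- `p 0, …, p d` are the predistance polynomials of `Γ`, whose largest eigenvalue is `lam` and
which has `d + 1` distinct eigenvalues -/
structure IsPredistance (lam : ℝ) (d : ℕ) (p : ℕ → ℝ[X]) : Prop where
  deg : ∀ i ≤ d, (p i).degree = i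
  orth : ∀ i ≤ d, ∀ j ≤ d, i ≠ j → ip Γ (p i) (p j) = 0
  nrm : ∀ i ≤ d, ip Γ (p i) (p i) = (p i).eval lam

/-- `D` is the diameter of `Γ` -/
def IsDiameter (D : ℕ) : Prop := (∀ x y, Γ.dist x y ≤ D) ∧ ∃ x y, Γ.dist x y = D

end defs

/-- adjacency of the prism on `{0, …, 5}`: same quotient or same remainder modulo `2` -/
def a (i j : Fin 6) : Bool := (i != j) && (i.val / 2 == j.val / 2 || i.val % 2 == j.val % 2)

/-- the triangular prism -/
def P : SimpleGraph (Fin 6) where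
  Adj i j := a i j = true
  symm := ⟨by decide⟩
  loopless := ⟨by decide⟩

instance : DecidableRel P.Adj := fun i j => inferInstanceAs (Decidable (a i j = true))

/-- the rational adjacency matrix -/
def A : Matrix (Fin 6) (Fin 6) ℚ := Matrix.of fun i j => if a i j then 1 else 0

/-- the cast to real matrices -/
noncomputable def φ : Matrix (Fin 6) (Fin 6) ℚ →+* Matrix (Fin 6) (Fin 6) ℝ :=
  (algebraMap ℚ ℝ).mapMatrix

lemma adjA : P.adjMatrix ℝ = φ A := by
  ext i j
  rw [φ, RingHom.mapMatrix_apply, Matrix.map_apply, SimpleGraph.adjMatrix_apply]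
  change (if a i j = true then (1 : ℝ) else 0) = algebraMap ℚ ℝ (if a i j = true then 1 else 0)
  split_ifs <;> simp

lemma minpolyA : A ^ 4 = 2 • A ^ 3 + 5 • A ^ 2 - 6 • A := by
  decide +kernel

lemma diag0 : ∀ i : Fin 6, (A ^ 0) i i = 1 := by decide +kernel
lemma diag1 : ∀ i : Fin 6, (A ^ 1) i i = 0 := by decide +kernel
lemma diag2 : ∀ i : Fin 6, (A ^ 2) i i = 3 := by decide +kernel
lemma diag3 : ∀ i : Fin 6, (A ^ 3) i i = 2 := by decide +kernel

lemma rec (l : ℕ) (i : Fin 6) : (A ^ (l + 4)) i i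
    = 2 * (A ^ (l + 3)) i i + 5 * (A ^ (l + 2)) i i - 6 * (A ^ (l + 1)) i i := by
  have h : A ^ (l + 4) = 2 • A ^ (l + 3) + 5 • A ^ (l + 2) - 6 • A ^ (l + 1) := by
    rw [pow_add, minpolyA, mul_sub, mul_add, mul_smul_comm, mul_smul_comm, mul_smul_comm,
      ← pow_add, ← pow_add, ← pow_succ]
  rw [h, Matrix.sub_apply, Matrix.add_apply, Matrix.smul_apply, Matrix.smul_apply,
    Matrix.smul_apply]
  simp only [nsmul_eq_mul, Nat.cast_ofNat]

/-- closed walk numbers -/
def w : ℕ → ℚ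
  | 0 => 1
  | 1 => 0
  | 2 => 3
  | 3 => 2
  | (l + 4) => 2 * w (l + 3) + 5 * w (l + 2) - 6 * w (l + 1)

lemma diagw : ∀ (l : ℕ) (i : Fin 6), (A ^ l) i i = w l
  | 0, i => diag0 i
  | 1, i => diag1 i
  | 2, i => diag2 i
  | 3, i => diag3 i
  | (l + 4), i => by
    rw [rec, diagw (l + 3), diagw (l + 2), diagw (l + 1), w]

lemma diagR (l : ℕ) (i : Fin 6) : (P.adjMatrix ℝ ^ l) i i = (w l : ℝ) := by
  rw [adjA, ← map_pow, φ, RingHom.mapMatrix_apply, Matrix.map_apply, diagw]
  simp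

lemma traceR (l : ℕ) : (P.adjMatrix ℝ ^ l).trace = 6 * (w l : ℝ) := by
  simp [Matrix.trace, diagR]

lemma walkRegular : WalkRegular P := by
  intro l x y
  rw [diagR, diagR]

lemma connected : P.Connected := by
  have h : ∀ x, P.Reachable 0 x := by
    intro x
    by_cases h0 : x = 0
    · rw [h0]
    · have h1 : ∀ x : Fin 6, x ≠ 0 → P.Adj 0 x ∨ ∃ z, P.Adj 0 z ∧ P.Adj z x := by decide
      rcases h1 x h0 with h | ⟨z, hz, hx⟩
      · exact h.reachable
      · exact hz.reachable.trans hx.reachable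
  exact { preconnected := fun x y => (h x).symm.trans (h y), nonempty := ⟨0⟩ }

lemma dist_le_two (x y : Fin 6) : P.dist x y ≤ 2 := by
  have h1 : ∀ x y : Fin 6, x = y ∨ P.Adj x y ∨ ∃ z, P.Adj x z ∧ P.Adj z y := by decide
  rcases h1 x y with h | h | ⟨z, hz, hy⟩
  · rw [h]; simp
  · rw [SimpleGraph.dist_eq_one_iff_adj.mpr h]; norm_num
  · exact SimpleGraph.dist_le (SimpleGraph.Walk.cons hz (SimpleGraph.Walk.cons hy SimpleGraph.Walk.nil))

lemma dist_eq_two (x y : Fin 6) : P.dist x y = 2 ↔ (x ≠ y ∧ ¬ P.Adj x y) := by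
  constructor
  · intro h
    refine ⟨?_, ?_⟩
    · rintro rfl
      simp at h
    · intro h1
      rw [SimpleGraph.dist_eq_one_iff_adj.mpr h1] at h
      norm_num at h
  · rintro ⟨h1, h2⟩
    have h3 := dist_le_two x y
    have h4 : P.dist x y ≠ 0 := by
      rw [Ne, connected.dist_eq_zero_iff]
      exact h1
    have h5 : P.dist x y ≠ 1 := by
      rw [Ne, SimpleGraph.dist_eq_one_iff_adj]
      exact h2
    omega

lemma card_two (x : Fin 6) : {y | P.dist x y = 2}.ncard = 2 := by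
  have h : {y | P.dist x y = 2} = ((univ.filter fun y => x ≠ y ∧ ¬ P.Adj x y : Finset (Fin 6)) :
      Set (Fin 6)) := by
    ext y
    simp [dist_eq_two]
  rw [h, Set.ncard_coe_finset]
  clear h
  revert x
  decide

/-- the functional `f ↦ (1 / 6) tr f (A)` -/
noncomputable def L : ℝ[X] →ₗ[ℝ] ℝ :=
  (1 / 6 : ℝ) • ((Matrix.traceLinearMap (Fin 6) ℝ ℝ) ∘ₗ (aeval (P.adjMatrix ℝ)).toLinearMap)

lemma L_X (k : ℕ) : L (X ^ k) = w k := by
  simp only [L, LinearMap.smul_apply, LinearMap.comp_apply, AlgHom.toLinearMap_apply, map_pow,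
    aeval_X, Matrix.traceLinearMap_apply, traceR, smul_eq_mul]
  ring

lemma ip_eq (f g : ℝ[X]) : ip P f g = L (f * g) := by
  simp only [L, ip, LinearMap.smul_apply, LinearMap.comp_apply, AlgHom.toLinearMap_apply, map_mul,
    Matrix.traceLinearMap_apply, smul_eq_mul, Fintype.card_fin, Nat.cast_ofNat]

/-- the cubic with given coefficients -/
noncomputable def q (c0 c1 c2 c3 : ℝ) : ℝ[X] := C c0 + C c1 * X + C c2 * X ^ 2 + C c3 * X ^ 3

lemma eval_q (c0 c1 c2 c3 t : ℝ) : (q c0 c1 c2 c3).eval t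
    = c0 + c1 * t + c2 * t ^ 2 + c3 * t ^ 3 := by
  simp [q]

lemma L_CX (c : ℝ) (k : ℕ) : L (C c * X ^ k) = c * w k := by
  rw [← Polynomial.smul_eq_C_mul, map_smul, L_X, smul_eq_mul]

lemma w0 : w 0 = 1 := rfl
lemma w1 : w 1 = 0 := rfl
lemma w2 : w 2 = 3 := rfl
lemma w3 : w 3 = 2 := rfl
lemma w4 : w 4 = 19 := by norm_num [w]
lemma w5 : w 5 = 30 := by norm_num [w]
lemma w6 : w 6 = 143 := by norm_num [w]

lemma ip_q (a0 a1 a2 a3 b0 b1 b2 b3 : ℝ) : ip P (q a0 a1 a2 a3) (q b0 b1 b2 b3)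
    = a0 * b0 + 3 * (a0 * b2 + a1 * b1 + a2 * b0) + 2 * (a0 * b3 + a1 * b2 + a2 * b1 + a3 * b0)
      + 19 * (a1 * b3 + a2 * b2 + a3 * b1) + 30 * (a2 * b3 + a3 * b2) + 143 * (a3 * b3) := by
  rw [ip_eq]
  have h : q a0 a1 a2 a3 * q b0 b1 b2 b3 = C (a0 * b0) * X ^ 0 + C (a0 * b1 + a1 * b0) * X ^ 1
      + C (a0 * b2 + a1 * b1 + a2 * b0) * X ^ 2
      + C (a0 * b3 + a1 * b2 + a2 * b1 + a3 * b0) * X ^ 3
      + C (a1 * b3 + a2 * b2 + a3 * b1) * X ^ 4 + C (a2 * b3 + a3 * b2) * X ^ 5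
      + C (a3 * b3) * X ^ 6 := by
    simp only [q, C_add, C_mul]
    ring
  rw [h]
  simp only [LinearMap.map_add, L_CX, w0, w1, w2, w3, w4, w5, w6]
  push_cast
  ring

lemma eq_q (f : ℝ[X]) (hf : f.natDegree ≤ 3) :
    f = q (f.coeff 0) (f.coeff 1) (f.coeff 2) (f.coeff 3) := by
  rw [f.as_sum_range' 4 (by omega)]
  simp [Finset.sum_range_succ, q, ← C_mul_X_pow_eq_monomial]

/-- the predistance polynomials of the prism -/
noncomputable def pp : ℕ → ℝ[X]
  | 0 => q 1 0 0 0
  | 1 => q 0 1 0 0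
  | 2 => q (-18 / 13) (-4 / 13) (6 / 13) 0
  | _ => q (25 / 65) (-71 / 65) (-17 / 65) (13 / 65)

lemma pp_spec : IsPredistance P 3 3 pp := by
  refine ⟨?_, ?_, ?_⟩
  · intro i hi
    interval_cases i
    · simp [pp, q]
    · simp [pp, q]
    · simp only [pp, q]
      rw [C_0, zero_mul, add_zero, add_comm (C (-18 / 13) + C (-4 / 13) * X)]
      compute_degree!
    · simp only [pp, q]
      compute_degree!
  · intro i hi j hj hij
    interval_cases i <;> interval_cases j <;>
      first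
      | exact absurd rfl hij
      | (simp only [pp, ip_q]; norm_num)
  · intro i hi
    interval_cases i <;> (simp only [pp]; rw [ip_q, eval_q]; norm_num)

lemma top_val (p : ℕ → ℝ[X]) (hp : IsPredistance P 3 3 p) : (p 3).eval 3 = 2 / 13 := by
  have d0 := hp.deg 0 (by norm_num)
  have d1 := hp.deg 1 (by norm_num)
  have d2 := hp.deg 2 (by norm_num)
  have d3 := hp.deg 3 (by norm_num)
  have n0 : (p 0).natDegree = 0 := natDegree_eq_of_degree_eq_some d0
  have n1 : (p 1).natDegree = 1 := natDegree_eq_of_degree_eq_some d1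
  have n2 : (p 2).natDegree = 2 := natDegree_eq_of_degree_eq_some d2
  have n3 : (p 3).natDegree = 3 := natDegree_eq_of_degree_eq_some d3
  have c0 : (p 0).coeff 0 ≠ 0 := by
    have := coeff_ne_zero_of_eq_degree d0; simpa using this
  have c1 : (p 1).coeff 1 ≠ 0 := by
    have := coeff_ne_zero_of_eq_degree d1; simpa using this
  have c2 : (p 2).coeff 2 ≠ 0 := by
    have := coeff_ne_zero_of_eq_degree d2; simpa using this
  have c3 : (p 3).coeff 3 ≠ 0 := by
    have := coeff_ne_zero_of_eq_degree d3; simpa using this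
  have z : ∀ i k, (p i).natDegree < k → (p i).coeff k = 0 := fun i k h =>
    coeff_eq_zero_of_natDegree_lt h
  have e0 := eq_q (p 0) (by omega)
  have e1 := eq_q (p 1) (by omega)
  have e2 := eq_q (p 2) (by omega)
  have e3 := eq_q (p 3) (by omega)
  rw [z 0 1 (by omega), z 0 2 (by omega), z 0 3 (by omega)] at e0
  rw [z 1 2 (by omega), z 1 3 (by omega)] at e1
  rw [z 2 3 (by omega)] at e2
  have o0 := hp.orth 3 (by norm_num) 0 (by norm_num) (by norm_num)
  have o1 := hp.orth 3 (by norm_num) 1 (by norm_num) (by norm_num)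
  have o2 := hp.orth 3 (by norm_num) 2 (by norm_num) (by norm_num)
  have nn := hp.nrm 3 (by norm_num)
  set a0 := (p 3).coeff 0
  set a1 := (p 3).coeff 1
  set a2 := (p 3).coeff 2
  set a3 := (p 3).coeff 3
  rw [e3, e0, ip_q] at o0
  rw [e3, e1, ip_q] at o1
  rw [e3, e2, ip_q] at o2
  rw [e3, ip_q] at nn
  have k0 : a0 + 3 * a2 + 2 * a3 = 0 := by
    have : (a0 + 3 * a2 + 2 * a3) * (p 0).coeff 0 = 0 := by linear_combination o0
    exact (mul_eq_zero.mp this).resolve_right c0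
  have k1 : 3 * a1 + 2 * a2 + 19 * a3 = 0 := by
    have : (3 * a1 + 2 * a2 + 19 * a3) * (p 1).coeff 1 = 0 := by
      linear_combination o1 - (p 1).coeff 0 * k0
    exact (mul_eq_zero.mp this).resolve_right c1
  have k2 : 3 * a0 + 2 * a1 + 19 * a2 + 30 * a3 = 0 := by
    have : (3 * a0 + 2 * a1 + 19 * a2 + 30 * a3) * (p 2).coeff 2 = 0 := by
      linear_combination o2 - (p 2).coeff 0 * k0 - (p 2).coeff 1 * k1
    exact (mul_eq_zero.mp this).resolve_right c2
  have f2 : a2 = -17 / 13 * a3 := by linear_combination (k2 - 3 * k0 - 2 / 3 * k1) * (3 / 26)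
  have f0 : a0 = 25 / 13 * a3 := by linear_combination k0 - 3 * f2
  have f1 : a1 = -71 / 13 * a3 := by linear_combination (1 / 3) * k1 - (2 / 3) * f2
  rw [eval_q, f0, f1, f2] at nn
  have h1 : a3 * (a3 - 1 / 5) = 0 := by linear_combination (13 / 50) * nn
  have h2 : a3 = 1 / 5 := by
    rcases mul_eq_zero.mp h1 with h | h
    · exact absurd h c3
    · linarith
  rw [e3, eval_q, f0, f1, f2, h2]
  norm_num

lemma spec_subset (t : ℝ) (ht : t ∈ spectrum ℝ (P.adjMatrix ℝ)) :
    t = 3 ∨ t = 1 ∨ t = 0 ∨ t = -2 := by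
  have h4 : P.adjMatrix ℝ ^ 4 = 2 • P.adjMatrix ℝ ^ 3 + 5 • P.adjMatrix ℝ ^ 2
      - 6 • P.adjMatrix ℝ := by
    have h := congrArg φ minpolyA
    rw [map_sub, map_add, map_nsmul, map_nsmul, map_nsmul, map_pow, map_pow, map_pow,
      ← adjA] at h
    exact h
  have hA : (P.adjMatrix ℝ).IsHermitian := P.isSymm_adjMatrix
  rw [hA.spectrum_real_eq_range_eigenvalues] at ht
  obtain ⟨j, rfl⟩ := ht
  set t := hA.eigenvalues j
  have hv := Q104.Spec.mulVec_ev hA j
  have h5 := congrArg (fun M => M *ᵥ Q104.Spec.ev hA j) h4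
  have hp : ∀ n : ℕ, P.adjMatrix ℝ ^ n *ᵥ Q104.Spec.ev hA j = t ^ n • Q104.Spec.ev hA j := by
    intro n
    induction n with
    | zero => simp
    | succ n ih =>
      rw [pow_succ, ← Matrix.mulVec_mulVec, hv, Matrix.mulVec_smul, ih, smul_smul, pow_succ,
        mul_comm]
  simp only [Matrix.sub_mulVec, Matrix.add_mulVec, Matrix.smul_mulVec, hp, hv] at h5
  obtain ⟨b, hb⟩ : ∃ b, Q104.Spec.ev hA j b ≠ 0 := by
    by_contra h
    push Not at h
    have h1 := Q104.Spec.ev_dot hA j j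
    rw [if_pos rfl, show Q104.Spec.ev hA j = 0 from funext h] at h1
    simp at h1
  have h6 := congrFun h5 b
  simp only [Pi.sub_apply, Pi.add_apply, Pi.smul_apply, smul_eq_mul] at h6
  simp only [nsmul_eq_mul, Nat.cast_ofNat] at h6
  have h7 : (t - 3) * ((t - 1) * (t * (t + 2))) * Q104.Spec.ev hA j b = 0 := by
    linear_combination h6
  have h8 := (mul_eq_zero.mp h7).resolve_right hb
  rcases mul_eq_zero.mp h8 with h | h
  · left; linarith
  · rcases mul_eq_zero.mp h with h | h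
    · right; left; linarith
    · rcases mul_eq_zero.mp h with h | h
      · right; right; left; exact h
      · right; right; right; linarith

lemma mem_spec (v : Fin 6 → ℚ) (t : ℚ) (hv : A *ᵥ v = t • v) (i : Fin 6) (hi : v i ≠ 0) :
    (t : ℝ) ∈ spectrum ℝ (P.adjMatrix ℝ) := by
  have hA : (P.adjMatrix ℝ).IsHermitian := P.isSymm_adjMatrix
  rw [hA.spectrum_real_eq_range_eigenvalues]
  refine Q104.Spec.exists_eigenvalue hA (x := fun i => (v i : ℝ)) ?_ ?_
  · intro h
    apply hi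
    have := congrFun h i
    simpa using this
  · ext k
    have h := congrFun hv k
    simp only [Matrix.mulVec, dotProduct, Pi.smul_apply, smul_eq_mul] at h ⊢
    rw [adjA]
    simp only [φ, RingHom.mapMatrix_apply, Matrix.map_apply, eq_ratCast]
    exact_mod_cast congrArg (fun q : ℚ => (q : ℝ)) h

lemma spec : spectrum ℝ (P.adjMatrix ℝ) = {3, 1, 0, -2} := by
  ext t
  simp only [Set.mem_insert_iff, Set.mem_singleton_iff]
  constructor
  · exact spec_subset t
  · rintro (rfl | rfl | rfl | rfl)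
    · simpa using mem_spec (fun _ => 1) 3 (by decide +kernel) 0 (by norm_num)
    · simpa using mem_spec ![1, -1, 1, -1, 1, -1] 1 (by decide +kernel) 0 (by norm_num)
    · simpa using mem_spec ![1, 1, -1, -1, 0, 0] 0 (by decide +kernel) 0 (by norm_num)
    · simpa using mem_spec ![1, -1, -1, 1, 0, 0] (-2) (by decide +kernel) 0 (by norm_num)

lemma card_spec : (spectrum ℝ (P.adjMatrix ℝ)).ncard = 4 := by
  rw [spec, Set.ncard_insert_of_notMem, Set.ncard_insert_of_notMem, Set.ncard_pair]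
  all_goals norm_num

lemma isGreatest_three : IsGreatest (spectrum ℝ (P.adjMatrix ℝ)) 3 := by
  rw [spec]
  constructor
  · simp
  · rintro t (rfl | rfl | rfl | rfl) <;> norm_num

lemma regular : P.IsRegularOfDegree 3 := by
  intro v
  revert v
  decide

/-- **The bound `|Γ_D (x)| ≤ p_d (k)` fails for a walk-regular graph with `D < d`.** -/
theorem result : ∃ (V : Type) (_ : Fintype V) (_ : DecidableEq V) (Γ : SimpleGraph V)
    (_ : DecidableRel Γ.Adj) (k D d : ℕ),
    Γ.Connected ∧ WalkRegular Γ ∧ Γ.IsRegularOfDegree k ∧ IsDiameter Γ D ∧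
    (spectrum ℝ (Γ.adjMatrix ℝ)).ncard = d + 1 ∧
    IsGreatest (spectrum ℝ (Γ.adjMatrix ℝ)) (k : ℝ) ∧ D < d ∧
    (∃ p : ℕ → ℝ[X], IsPredistance Γ k d p) ∧
    ∀ p : ℕ → ℝ[X], IsPredistance Γ k d p →
      ∀ x : V, 12 * (p d).eval (k : ℝ) < ({y | Γ.dist x y = D}.ncard : ℝ) := by
  refine ⟨Fin 6, inferInstance, inferInstance, P, inferInstance, 3, 2, 3, connected, walkRegular,
    regular, ⟨dist_le_two, 0, 3, (dist_eq_two 0 3).mpr (by decide)⟩, card_spec,
    by simpa using isGreatest_three, by norm_num, ⟨pp, by simpa using pp_spec⟩, ?_⟩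
  intro p hp x
  rw [card_two]
  have h := top_val p (by simpa using hp)
  have h2 : (p 3).eval ((3 : ℕ) : ℝ) = 2 / 13 := by simpa using h
  rw [h2]
  norm_num

end Pool.Agent.Results.MP_87d29b_co.Prism
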